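import Mathlib

namespace Pool.Agent.Results.MP_9dcafa_lc.Basis

/-- The second Grzegorczyk class. -/
inductive E2 : ∀ {n}, (List.Vector ℕ n → ℕ) → Prop
  | zero : @E2 0 fun _ => 0
  | succ : @E2 1 fun v => v.head + 1
  | get {n} (i : Fin n) : E2 fun v => v.get i
  | add : @E2 2 fun v => v.head + v.tail.head
  | mul : @E2 2 fun v => v.head * v.tail.head
  | comp {m n f} (g : Fin n → List.Vector ℕ m → ℕ) :
      E2 f → (∀ i, E2 (g i)) → E2 fun a => f (List.Vector.ofFn fun i => g i a)
  | brec {n f g} {h b : List.Vector ℕ (n + 1) → ℕ} : @E2 n f → @E2 (n + 2) g → E2 b →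
      (∀ v, h (0 ::ᵥ v) = f v) → (∀ y v, h ((y + 1) ::ᵥ v) = g (y ::ᵥ h (y ::ᵥ v) ::ᵥ v)) →
      (∀ v, h v ≤ b v) → E2 h

/-- `f` is primitive recursive on the copy given by the isomorphism `ι`. -/
def PrimOn (ι : ℕ ≃ ℕ) {k : ℕ} (f : List.Vector ℕ k → ℕ) : Prop :=
  Primrec fun v : List.Vector ℕ k => ι (f (v.map ι.symm))

open List.Vector

namespace E2

theorem of_eq {n} {f g : List.Vector ℕ n → ℕ} (hf : E2 f) (H : ∀ i, f i = g i) : E2 g :=
  (funext H : f = g) ▸ hf

theorem const {n} : ∀ m, @E2 n fun _ => m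
  | 0 => zero.comp Fin.elim0 fun i => i.elim0
  | m + 1 => succ.comp _ fun _ => const m

theorem head {n : ℕ} : @E2 n.succ head :=
  (get 0).of_eq fun v => by simp [get_zero]

set_option backward.isDefEq.respectTransparency false in
theorem tail {n f} (hf : @E2 n f) : @E2 n.succ fun v => f v.tail :=
  (hf.comp _ fun i => @get _ i.succ).of_eq fun v => by
    rw [← ofFn_get v.tail]; congr; funext i; simp

def Vec {n m} (f : List.Vector ℕ n → List.Vector ℕ m) : Prop := ∀ i, E2 fun v => (f v).get i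

theorem vnil {n} : @Vec n 0 fun _ => nil := fun i => i.elim0

theorem Vec.cons {n m f g} (hf : @E2 n f) (hg : @Vec n m g) :
    Vec fun v => f v ::ᵥ g v := fun i => Fin.cases (by simp [*]) (fun i => by simp [hg i]) i

theorem idv {n} : @Vec n n id := get

theorem Vec.tail {n m f} (hf : @Vec n m f) : @Vec (n + 1) m fun v => f v.tail :=
  fun i => (hf i).tail

theorem comp' {n m f g} (hf : @E2 m f) (hg : @Vec n m g) : E2 fun v => f (g v) :=
  (hf.comp _ hg).of_eq fun v => by simp

theorem comp₂ (f : ℕ → ℕ → ℕ) (hf : @E2 2 fun v => f v.head v.tail.head) {n g h}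
    (hg : @E2 n g) (hh : @E2 n h) : E2 fun v => f (g v) (h v) := by
  simpa using hf.comp' (Vec.cons hg <| Vec.cons hh vnil)

theorem add' {n g h} (hg : @E2 n g) (hh : @E2 n h) : E2 fun v => g v + h v :=
  comp₂ (· + ·) add hg hh

theorem rec' {n f g h b} (hf : @E2 n f) (hg : @E2 n g) (hh : @E2 (n + 2) h)
    (hb : @E2 (n + 1) b)
    (H : ∀ (y : ℕ) v, (y.rec (g v) fun y IH : ℕ => h (y ::ᵥ IH ::ᵥ v) : ℕ) ≤ b (y ::ᵥ v)) :
    @E2 n fun v => (f v).rec (g v) fun y IH : ℕ => h (y ::ᵥ IH ::ᵥ v) := by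
  have : @E2 (n + 1) fun v => v.head.rec (g v.tail) fun y IH : ℕ => h (y ::ᵥ IH ::ᵥ v.tail) :=
    brec hg hh hb (fun v => by simp) (fun y v => by simp)
      (fun v => by simpa using H v.head v.tail)
  simpa using comp' this (Vec.cons hf idv)

theorem pred {n f} (hf : @E2 n f) : E2 fun v => f v - 1 :=
  (rec' hf (const 0) head head fun y v => by cases y <;> simp).of_eq fun v => by
    cases f v <;> simp

theorem sub {n f g} (hf : @E2 n f) (hg : @E2 n g) : E2 fun v => f v - g v := by
  have e : ∀ (y : ℕ) (v : List.Vector ℕ n), (y.rec (f v) fun y IH : ℕ =>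
      (y ::ᵥ IH ::ᵥ v).tail.head - 1 : ℕ) = f v - y := by
    intro y v
    induction y <;> simp_all [Nat.sub_add_eq]
  exact (rec' hg hf (pred (tail head)) (tail hf) fun y v => by rw [e]; simp).of_eq fun v => e _ _

theorem ifz {n c f g} (hc : @E2 n c) (hf : @E2 n f) (hg : @E2 n g) :
    E2 fun v => if c v = 0 then f v else g v :=
  (rec' hc hf (tail (tail hg)) (tail (add' hf hg)) fun y v => by cases y <;> simp).of_eq
    fun v => by cases c v <;> simp

end E2

/-- clocked approximation in `E2`; the clock is the head of the vector -/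
def Clock {n} (f : List.Vector ℕ n → ℕ) : Prop :=
  ∃ (F : List.Vector ℕ (n + 1) → ℕ) (τ : List.Vector ℕ n → ℕ), E2 F ∧ Primrec τ ∧
    (∀ t v, F (t ::ᵥ v) = 0 ∨ (F (t ::ᵥ v) = f v + 1 ∧ f v ≤ t)) ∧
    ∀ t v, τ v ≤ t → F (t ::ᵥ v) ≠ 0

theorem clock_basic {n} {f : List.Vector ℕ n → ℕ} (h : E2 f) (h' : Primrec f) : Clock f := by
  refine ⟨fun v => if f v.tail - v.head = 0 then f v.tail + 1 else 0, f,
    E2.ifz (h.tail.sub E2.head) (h.tail.add' (E2.const 1)) (E2.const 0), h', fun t v => ?_,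
    fun t v ht => ?_⟩
  · simp only [tail_cons, head_cons]
    split_ifs
    · exact Or.inr ⟨rfl, by omega⟩
    · exact Or.inl rfl
  · simp only [tail_cons, head_cons]
    rw [if_pos (by omega)]
    omega

theorem e2_sum {n m} (g : Fin m → List.Vector ℕ n → ℕ) (h : ∀ i, E2 (g i)) :
    E2 fun v => ∑ i, g i v := by
  induction m with
  | zero => exact (E2.const 0).of_eq (by simp)
  | succ m ih =>
    exact ((h 0).add' (ih (fun i => g i.succ) fun i => h _)).of_eq fun v => by
      rw [Fin.sum_univ_succ]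

theorem pr_sum {α} [Primcodable α] {m} (g : Fin m → α → ℕ) (h : ∀ i, Primrec (g i)) :
    Primrec fun v => ∑ i, g i v := by
  induction m with
  | zero => exact (Primrec.const 0).of_eq (by simp)
  | succ m ih =>
    exact (Primrec.nat_add.comp (h 0) (ih (fun i => g i.succ) fun i => h _)).of_eq fun v => by
      rw [Fin.sum_univ_succ]

theorem clock {n} {f : List.Vector ℕ n → ℕ} (h : Nat.Primrec' f) : Clock f := by
  induction h with
  | zero => exact clock_basic E2.zero (Primrec.const 0)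
  | succ => exact clock_basic E2.succ Nat.Primrec'.succ.to_prim
  | get i => exact clock_basic (E2.get i) (Nat.Primrec'.get i).to_prim
  | @comp m n f g hf hg ihf ihg =>
    obtain ⟨F, τ, h1, h2, h3, h4⟩ := ihf
    choose G σ k1 k2 k3 k4 using ihg
    refine ⟨fun v => if (∑ i, (1 - G i v)) = 0 then F (v.head ::ᵥ ofFn fun i => G i v - 1) else 0,
      fun v => (∑ i, σ i v) + τ (ofFn fun i => g i v), ?_, ?_, fun t v => ?_, fun t v ht => ?_⟩
    · refine E2.ifz (e2_sum _ fun i => (E2.const 1).sub (k1 i)) (h1.comp' ?_) (E2.const 0)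
      exact E2.Vec.cons E2.head fun i => by simpa using (k1 i).pred
    · exact Primrec.nat_add.comp (pr_sum _ k2) (h2.comp (.vector_ofFn fun i => (hg i).to_prim))
    · beta_reduce
      split_ifs with c
      · have : (ofFn fun i => G i (t ::ᵥ v) - 1) = ofFn fun i => g i v := by
          congr 1
          funext i
          have := Finset.sum_eq_zero_iff.1 c i (Finset.mem_univ _)
          have := k3 i t v
          omega
        simp only [this, head_cons]
        exact h3 _ _
      · exact Or.inl rfl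
    · have k5 : ∀ i, G i (t ::ᵥ v) ≠ 0 := fun i => k4 i t v
        ((Finset.single_le_sum (f := fun i => σ i v) (fun _ _ => Nat.zero_le _)
          (Finset.mem_univ i)).trans ((Nat.le_add_right _ _).trans ht))
      have : (ofFn fun i => G i (t ::ᵥ v) - 1) = ofFn fun i => g i v := by
        congr 1
        funext i
        have := k5 i
        have := k3 i t v
        omega
      beta_reduce
      rw [if_pos (Finset.sum_eq_zero fun i _ => by have := k5 i; omega), this, head_cons]
      exact h4 _ _ ((Nat.le_add_left _ _).trans ht)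
  | @prec n f g hf hg ihf ihg =>
    obtain ⟨F, τ, h1, h2, h3, h4⟩ := ihf
    obtain ⟨G, σ, k1, k2, k3, k4⟩ := ihg
    let r : ℕ → List.Vector ℕ n → ℕ := fun y v => y.rec (f v) fun y IH => g (y ::ᵥ IH ::ᵥ v)
    have hr : Primrec fun v : List.Vector ℕ (n + 1) => r v.head v.tail := (hf.prec hg).to_prim
    let s : List.Vector ℕ (n + 1 + 1 + 2) → ℕ := fun w => if w.tail.head = 0 then 0 else
      G (w.tail.tail.head ::ᵥ w.head ::ᵥ (w.tail.head - 1) ::ᵥ w.tail.tail.tail.tail)
    have hs : E2 s := E2.ifz E2.head.tail (E2.const 0) (k1.comp' (E2.Vec.cons E2.head.tail.tail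
      (E2.Vec.cons E2.head (E2.Vec.cons E2.head.tail.pred E2.idv.tail.tail.tail.tail))))
    let R : ℕ → List.Vector ℕ (n + 1 + 1) → ℕ := fun y w =>
      y.rec (F (w.head ::ᵥ w.tail.tail)) fun y IH : ℕ => s (y ::ᵥ IH ::ᵥ w)
    have hR : ∀ y w, R y w = 0 ∨ (R y w = r y w.tail.tail + 1 ∧ r y w.tail.tail ≤ w.head) := by
      intro y w
      induction y with
      | zero => exact h3 _ _
      | succ y ih =>
        have e : R (y + 1) w = s (y ::ᵥ R y w ::ᵥ w) := rfl
        rw [e]
        simp only [s, tail_cons, head_cons]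
        split_ifs with c
        · exact Or.inl rfl
        · rw [(ih.resolve_left c).1]
          exact k3 _ _
    let T : ℕ → List.Vector ℕ n → ℕ := fun y v =>
      y.rec (τ v) fun y IH => IH + σ (y ::ᵥ r y v ::ᵥ v)
    refine ⟨fun w => R w.tail.head w, fun v => T v.head v.tail, ?_, ?_, fun t v => ?_,
      fun t v ht => ?_⟩
    · refine E2.rec' E2.head.tail (h1.comp' (E2.Vec.cons E2.head E2.idv.tail.tail)) hs
        (E2.head.tail.add' (E2.const 1)) fun y w => ?_
      have := hR y w
      simp only [tail_cons]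
      change R y w ≤ _
      omega
    · refine Primrec.nat_rec' .vector_head (h2.comp Primrec.vector_tail)
        (h := fun v (p : ℕ × ℕ) => p.2 + σ (p.1 ::ᵥ r p.1 v.tail ::ᵥ v.tail)) ?_
      have a1 : Primrec fun p : List.Vector ℕ (n + 1) × ℕ × ℕ => p.2.1 := Primrec.fst.comp .snd
      have a2 : Primrec fun p : List.Vector ℕ (n + 1) × ℕ × ℕ => p.1.tail :=
        (@Primrec.vector_tail _ _ (n + 1)).comp .fst
      refine Primrec.nat_add.comp (Primrec.snd.comp .snd) (k2.comp (Primrec.vector_cons.comp a1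
        (Primrec.vector_cons.comp ?_ a2)))
      exact (hr.comp (Primrec.vector_cons.comp a1 a2)).of_eq fun p => by simp
    · simpa using hR v.head (t ::ᵥ v)
    · simp only [tail_cons] at ht ⊢
      generalize v.head = y at ht ⊢
      induction y with
      | zero => simpa [R] using h4 t v.tail ht
      | succ y ih =>
        have e : R (y + 1) (t ::ᵥ v) = s (y ::ᵥ R y (t ::ᵥ v) ::ᵥ t ::ᵥ v) := rfl
        have e2 : T (y + 1) v.tail = T y v.tail + σ (y ::ᵥ r y v.tail ::ᵥ v.tail) := rfl
        have c := ih (by omega)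
        rw [e]
        simp only [s, tail_cons, head_cons, if_neg c]
        rw [((hR y _).resolve_left c).1]
        exact k4 _ _ (by simp only [tail_cons, Nat.add_sub_cancel]; omega)

theorem pr_map {k : ℕ} {f : ℕ → ℕ} (hf : Primrec f) :
    Primrec fun v : List.Vector ℕ k => v.map f :=
  (Primrec.vector_ofFn fun i => hf.comp (Primrec.vector_get.comp .id (.const i))).of_eq fun v => by
    ext i
    simp

theorem result (S : ℕ → ℕ) (ι : ℕ ≃ ℕ) (hι : ∀ n, ι (n + 1) = S (ι n)) (hS : Primrec S)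
    (hE : ∀ (k : ℕ) (f : List.Vector ℕ k → ℕ), E2 f → PrimOn ι f) :
    ∀ (k : ℕ) (f : List.Vector ℕ k → ℕ), PrimOn ι f ↔ Primrec f := by
  have p1 : Primrec (ι : ℕ → ℕ) :=
    (Primrec.nat_rec₁ (ι 0) (hS.comp Primrec.snd).to₂).of_eq fun n => by
      induction n with
      | zero => rfl
      | succ n ih => rw [hι, ← ih]
  obtain ⟨F, τ, h1, h2, h3, h4⟩ := clock (Nat.Primrec'.prim_iff₁.2 p1)
  let s : List.Vector ℕ 3 → ℕ := fun w => if F (w.tail.tail.head ::ᵥ (w.head + 1) ::ᵥ nil) -
    F (w.tail.tail.head ::ᵥ w.tail.head ::ᵥ nil) = 0 then w.tail.head else w.head + 1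
  have hs : E2 s := E2.ifz ((h1.comp' (E2.Vec.cons E2.head.tail.tail (E2.Vec.cons
    (E2.head.add' (E2.const 1)) E2.vnil))).sub (h1.comp' (E2.Vec.cons E2.head.tail.tail
    (E2.Vec.cons E2.head.tail E2.vnil)))) E2.head.tail (E2.head.add' (E2.const 1))
  let R : ℕ → List.Vector ℕ 1 → ℕ := fun y w => y.rec 0 fun y IH : ℕ => s (y ::ᵥ IH ::ᵥ w)
  have hR : ∀ y w, R y w ≤ y ∧ ∀ m ≤ y, F (w.head ::ᵥ m ::ᵥ nil) ≤ F (w.head ::ᵥ R y w ::ᵥ nil) := by
    intro y w
    induction y with
    | zero => exact ⟨le_rfl, fun m hm => by rw [Nat.le_zero.1 hm]; exact le_rfl⟩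
    | succ y ih =>
      have e : R (y + 1) w = s (y ::ᵥ R y w ::ᵥ w) := rfl
      rw [e]
      simp only [s, tail_cons, head_cons]
      split_ifs with c
      · refine ⟨by omega, fun m hm => ?_⟩
        rcases Nat.le_succ_iff.1 hm with hm | rfl
        · exact ih.2 m hm
        · exact Nat.sub_eq_zero_iff_le.1 c
      · refine ⟨le_rfl, fun m hm => ?_⟩
        rcases Nat.le_succ_iff.1 hm with hm | rfl
        · have := ih.2 m hm
          omega
        · exact le_rfl
  have hG : E2 fun w : List.Vector ℕ 1 => R w.head w :=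
    E2.rec' E2.head (E2.const 0) hs E2.head fun y w => (hR y w).1
  have pG : Primrec fun a : ℕ => ι (R (ι.symm a) (ι.symm a ::ᵥ nil)) :=
    ((hE 1 _ hG).comp (Primrec.vector_cons.comp .id (.const nil))).of_eq fun a => by simp
  let T : ℕ → ℕ := fun k => k.rec (τ (0 ::ᵥ nil)) fun y IH => IH + τ ((y + 1) ::ᵥ nil) + 1
  have pT : Primrec T := Primrec.nat_rec₁ _ (Primrec.succ.comp (Primrec.nat_add.comp .snd
    (h2.comp (Primrec.vector_cons.comp (Primrec.succ.comp .fst) (.const nil))))).to₂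
  have hT : ∀ k, k ≤ T k ∧ ∀ m ≤ k, τ (m ::ᵥ nil) ≤ T k := by
    intro k
    induction k with
    | zero => exact ⟨Nat.zero_le _, fun m hm => by rw [Nat.le_zero.1 hm]; exact le_rfl⟩
    | succ k ih =>
      have e : T (k + 1) = T k + τ ((k + 1) ::ᵥ nil) + 1 := rfl
      refine ⟨by omega, fun m hm => ?_⟩
      rcases Nat.le_succ_iff.1 hm with hm | rfl
      · have := ih.2 m hm
        omega
      · simp only [Nat.succ_eq_add_one]
        omega
  have key : ∀ n, n < T (ι (R n (n ::ᵥ nil)) + 1) := by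
    intro n
    by_contra hn
    set c := ι (R n (n ::ᵥ nil)) with hc
    have : ∀ m : Fin (c + 2), ι m < c + 1 := by
      intro m
      have a1 := (hR n (n ::ᵥ nil)).2 m (by have := (hT (c + 1)).1; omega)
      have a2 := h4 n (m ::ᵥ nil) (by have := (hT (c + 1)).2 m (by omega); omega)
      have a3 := h3 n (m ::ᵥ nil)
      have a4 := h3 n (R n (n ::ᵥ nil) ::ᵥ nil)
      simp only [head_cons] at a1 a3 a4
      omega
    have := Fintype.card_le_of_injective (fun m : Fin (c + 2) => (⟨ι m, this m⟩ : Fin (c + 1)))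
      fun a b h => Fin.ext (ι.injective (congrArg Fin.val h))
    simp at this
  have p2 : Primrec (ι.symm : ℕ → ℕ) := by
    have : PrimrecRel fun a n : ℕ => ι n = a := Primrec.eq.comp (p1.comp .snd) .fst
    refine (Primrec.nat_findGreatest (pT.comp (Primrec.succ.comp pG)) this).of_eq fun a => ?_
    rw [Nat.findGreatest_eq_iff]
    refine ⟨(key _).le, fun _ => ι.apply_symm_apply a, fun n h _ e => ?_⟩
    rw [← e, ι.symm_apply_apply] at h
    exact lt_irrefl _ h
  intro k f
  refine ⟨fun h => ?_, fun h => p1.comp (h.comp (pr_map p2))⟩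
  refine (p2.comp (Primrec.comp h (pr_map p1))).of_eq fun v => ?_
  rw [ι.symm_apply_apply]
  congr 1
  ext i
  simp

end Pool.Agent.Results.MP_9dcafa_lc.Basis
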